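import Pool.Agent.H98.DH.FinS

/-!
Form 1 from the master statement (helper61).
-/

set_option autoImplicit false
open scoped Classical

namespace H61DH

open H98DH Filter

theorem f1_core (K D e f : ℕ) (hK : 1 ≤ K) (hD : 2 ≤ D) (hDK : D ≤ K + 1) (he : 1 ≤ e) :
    ∃ c : ℝ, 0 < c ∧ ∃ L0 : ℝ, ∀ L : ℝ, L0 ≤ L → ∃ w : ℕ, L ≤ w ∧
      8 * e * (w : ℝ) ^ (D - 1) * (8000 * K) ^ K ≤ L ^ (K + 1) ∧
      ((f : ℝ) + 1) * e * (w : ℝ) ^ (D - 1) ≤ Real.exp (L / 4) ∧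
      c * L ^ (((K : ℝ) + 1) / ((D : ℝ) - 1)) + L + 2 ≤ w * Real.log (8 / 5) ∧
      c * L ^ (((K : ℝ) + 1) / ((D : ℝ) - 1)) + L + 2 ≤ Real.exp (L / 4) / 2 ∧
      10 ^ 6 * (K : ℝ) ≤ L := by
  set θ : ℝ := ((K : ℝ) + 1) / ((D : ℝ) - 1) with hθ
  have hK0 : (0 : ℝ) < K := by exact_mod_cast hK
  have he0 : (0 : ℝ) < e := by exact_mod_cast he
  have hD' : (2 : ℝ) ≤ D := by exact_mod_cast hD
  have hDK' : (D : ℝ) ≤ K + 1 := by exact_mod_cast hDK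
  have hθ1 : 0 < θ - 1 := by
    have : 1 < θ := by
      rw [hθ, lt_div_iff₀ (by linarith)]
      linarith
    linarith
  set M0 : ℝ := 8 * e * (8000 * K) ^ K with hM0
  have hM0p : 0 < M0 := by positivity
  have hDm : ((D - 1 : ℕ) : ℝ) = (D : ℝ) - 1 := by
    rw [Nat.cast_sub (by omega)]
    norm_num
  have hDmp : (0 : ℝ) < (D : ℝ) - 1 := by linarith
  set c1 : ℝ := M0 ^ (-(1 / ((D : ℝ) - 1))) with hc1
  have hc1p : 0 < c1 := Real.rpow_pos_of_pos hM0p _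
  have hc1pow : c1 ^ (D - 1) = M0⁻¹ := by
    rw [hc1, ← Real.rpow_natCast, ← Real.rpow_mul hM0p.le, hDm, ← Real.rpow_neg_one]
    congr 1
    field_simp
  -- eventual conditions
  have e1 : ∀ᶠ L : ℝ in atTop, 20 / c1 ≤ L ^ (θ - 1) := (tendsto_rpow_atTop hθ1).eventually_ge_atTop _
  have e2 : ∀ᶠ L : ℝ in atTop, 10 ^ 6 * (K : ℝ) ≤ L := eventually_ge_atTop _
  have e3 : ∀ᶠ L : ℝ in atTop, c1 * L ^ θ ≤ Real.exp (L / 4) := by
    have h := (isLittleO_rpow_exp_pos_mul_atTop θ (b := 1 / 4) (by norm_num)).bound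
      (show (0 : ℝ) < 1 / c1 by positivity)
    filter_upwards [h, eventually_ge_atTop (0 : ℝ)] with L hL hL0
    rw [Real.norm_of_nonneg (Real.rpow_nonneg hL0 _), Real.norm_of_nonneg (Real.exp_pos _).le] at hL
    have h1 := mul_le_mul_of_nonneg_left hL hc1p.le
    rw [← mul_assoc, mul_one_div, div_self hc1p.ne', one_mul] at h1
    refine h1.trans (le_of_eq ?_)
    congr 1
    ring
  have e4 : ∀ᶠ L : ℝ in atTop, ((f : ℝ) + 1) * e * (L ^ (K + 1) * M0⁻¹) ≤ Real.exp (L / 4) := by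
    have hC : 0 < ((f : ℝ) + 1) * e * M0⁻¹ := by positivity
    have h := (isLittleO_rpow_exp_pos_mul_atTop ((K + 1 : ℕ) : ℝ) (b := 1 / 4) (by norm_num)).bound
      (show (0 : ℝ) < 1 / (((f : ℝ) + 1) * e * M0⁻¹) by positivity)
    filter_upwards [h, eventually_ge_atTop (0 : ℝ)] with L hL hL0
    rw [Real.norm_of_nonneg (Real.rpow_nonneg hL0 _), Real.norm_of_nonneg (Real.exp_pos _).le,
      Real.rpow_natCast] at hL
    have h1 := mul_le_mul_of_nonneg_left hL hC.le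
    rw [← mul_assoc, mul_one_div, div_self hC.ne', one_mul] at h1
    calc ((f : ℝ) + 1) * e * (L ^ (K + 1) * M0⁻¹) = ((f : ℝ) + 1) * e * M0⁻¹ * L ^ (K + 1) := by ring
      _ ≤ Real.exp (1 / 4 * L) := h1
      _ = Real.exp (L / 4) := by
        congr 1
        ring
  have e5 : ∀ᶠ L : ℝ in atTop, 5 * (L + 2) ≤ Real.exp (L / 4) := by
    filter_upwards [eventually_ge_atTop (1000 : ℝ)] with L hL
    have h := Real.quadratic_le_exp_of_nonneg (show (0 : ℝ) ≤ L / 4 by linarith)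
    nlinarith
  obtain ⟨L0, hL0⟩ := eventually_atTop.mp (e1.and (e2.and (e3.and (e4.and e5))))
  refine ⟨c1 / 10, by positivity, max L0 1, fun L hL => ?_⟩
  have hL1 : (1 : ℝ) ≤ L := (le_max_right _ _).trans hL
  have hLp : (0 : ℝ) < L := by linarith
  obtain ⟨h1, h2, h3, h4, h5⟩ := hL0 L ((le_max_left _ _).trans hL)
  have hy : 20 * L ≤ c1 * L ^ θ := by
    have h6 : L ^ θ = L ^ (θ - 1) * L := by
      have h7 := Real.rpow_add hLp (θ - 1) 1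
      rw [Real.rpow_one, sub_add_cancel] at h7
      exact h7
    rw [h6]
    have h8 := mul_le_mul_of_nonneg_left h1 hc1p.le
    rw [mul_div_cancel₀ _ hc1p.ne'] at h8
    nlinarith
  have hyp : 0 ≤ c1 * L ^ θ := by positivity
  set y : ℝ := c1 * L ^ θ with hydef
  have hw1 : ((⌊y⌋₊ : ℕ) : ℝ) ≤ y := Nat.floor_le hyp
  have hw2 : y - 1 < ((⌊y⌋₊ : ℕ) : ℝ) := by
    have := Nat.lt_floor_add_one y
    linarith
  have hwpow : ((⌊y⌋₊ : ℕ) : ℝ) ^ (D - 1) ≤ L ^ (K + 1) * M0⁻¹ := by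
    calc ((⌊y⌋₊ : ℕ) : ℝ) ^ (D - 1) ≤ y ^ (D - 1) := pow_le_pow_left₀ (Nat.cast_nonneg _) hw1 _
      _ = L ^ (K + 1) * M0⁻¹ := by
        rw [hydef, mul_pow, hc1pow, mul_comm]
        congr 1
        rw [← Real.rpow_natCast, ← Real.rpow_mul hLp.le, hDm, hθ, div_mul_cancel₀ _ hDmp.ne',
          ← Real.rpow_natCast]
        push_cast
        rfl
  have hlog : (0.4 : ℝ) ≤ Real.log (8 / 5) := by
    rw [Real.le_log_iff_exp_le (by norm_num)]
    have h6 := Real.exp_one_lt_d9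
    have h7 : Real.exp (0.4 : ℝ) ^ 5 = Real.exp 1 ^ 2 := by
      rw [← Real.exp_nat_mul, ← Real.exp_nat_mul]
      norm_num
    have h8 : Real.exp 1 ^ 2 ≤ (8 / 5 : ℝ) ^ 5 := by
      have h9 := Real.exp_pos 1
      nlinarith
    rw [← h7] at h8
    exact le_of_pow_le_pow_left₀ (by norm_num) (by norm_num) h8
  have hcy : c1 / 10 * L ^ θ = y / 10 := by
    rw [hydef]
    ring
  refine ⟨⌊y⌋₊, by linarith, ?_, ?_, ?_, ?_, h2⟩
  · calc 8 * (e : ℝ) * ((⌊y⌋₊ : ℕ) : ℝ) ^ (D - 1) * (8000 * K) ^ K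
          = M0 * ((⌊y⌋₊ : ℕ) : ℝ) ^ (D - 1) := by rw [hM0]; ring
      _ ≤ M0 * (L ^ (K + 1) * M0⁻¹) := mul_le_mul_of_nonneg_left hwpow hM0p.le
      _ = L ^ (K + 1) := by
        field_simp
  · refine le_trans (mul_le_mul_of_nonneg_left hwpow (by positivity)) h4
  · rw [hcy]
    have h6 : (0.4 : ℝ) * (y - 1) ≤ ((⌊y⌋₊ : ℕ) : ℝ) * Real.log (8 / 5) := by
      have h7 : (0 : ℝ) ≤ y - 1 := by linarith
      nlinarith
    have hL6 : (10 : ℝ) ^ 6 ≤ L := by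
      have h8 : (1 : ℝ) ≤ K := by exact_mod_cast hK
      nlinarith
    linarith
  · rw [hcy]
    linarith

/-- Form 1. -/
theorem form1 (h : MasterSt)
    (K D e f : ℕ) (hK : 1 ≤ K) (hD : 2 ≤ D) (hDK : D ≤ K + 1) (he : 1 ≤ e) :
    ∃ c : ℝ, 0 < c ∧ ∃ N0 : ℕ, ∀ N ≥ N0, ∃ (n r : ℕ) (C : Fin r → Fm n (K + 1)), n ≤ N ∧ r ≤ N ^ 7 ∧
      (∀ j, leaves (K + 1) (C j) ≤ N) ∧ (∀ x, ∃ j, ¬ Holds (K + 1) (C j) x) ∧
      ∀ S : ℕ, Refutes (fun j => {x | Holds (K + 1) (C j) x}) e D f S →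
        Real.exp (c * Real.log N ^ (((K : ℝ) + 1) / ((D : ℝ) - 1))) ≤ S := by
  obtain ⟨c, hc, L0, hL0⟩ := f1_core K D e f hK hD hDK he
  obtain ⟨N1, hN1⟩ := eventually_atTop.mp
    ((Real.tendsto_log_atTop.comp tendsto_natCast_atTop_atTop).eventually_ge_atTop L0)
  refine ⟨c, hc, max N1 1, fun N hN => ?_⟩
  have hN0 : 1 ≤ N := (le_max_right _ _).trans hN
  have hNp : (0 : ℝ) < N := by exact_mod_cast hN0
  have hN1' : (1 : ℝ) ≤ N := by exact_mod_cast hN0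
  obtain ⟨w, h1, h2, h3, h4, h5, h6⟩ := hL0 (Real.log N) (hN1 N ((le_max_left _ _).trans hN))
  obtain ⟨n, r, C, g1, g2, g3, g4, g5⟩ := h K N hK h6
  have hE : (N : ℝ) ^ (1 / 4 : ℝ) = Real.exp (Real.log N / 4) := by
    rw [Real.rpow_def_of_pos hNp]
    congr 1
    ring
  refine ⟨n, r, C, g1, g2, g3, g4, fun S hS => ?_⟩
  have h7 := g5 D e f S w hD he h1 h2 (by rw [hE]; exact h3) hS
  set y : ℝ := c * Real.log N ^ (((K : ℝ) + 1) / ((D : ℝ) - 1)) with hy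
  have h8 : Real.exp (y + Real.log N + 2) ≤ min ((8 / 5 : ℝ) ^ w) (Real.exp ((N : ℝ) ^ (1 / 4 : ℝ) / 2)) := by
    refine le_min ?_ (Real.exp_le_exp.mpr (by rw [hE]; exact h5))
    have h9 : (8 / 5 : ℝ) ^ w = Real.exp (w * Real.log (8 / 5)) := by
      rw [Real.exp_nat_mul, Real.exp_log (by norm_num)]
    rw [h9]
    exact Real.exp_le_exp.mpr h4
  have h10 : Real.exp (y + Real.log N + 2) = Real.exp y * (N * Real.exp 2) := by
    rw [Real.exp_add, Real.exp_add, Real.exp_log hNp]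
    ring
  have h11 : 2 * ((N : ℝ) + 1) ≤ N * Real.exp 2 := by
    have h12 := Real.add_one_le_exp (1 : ℝ)
    have h13 : Real.exp 2 = Real.exp 1 * Real.exp 1 := by
      rw [← Real.exp_add]
      norm_num
    have h15 : (4 : ℝ) ≤ Real.exp 1 * Real.exp 1 := by nlinarith
    rw [h13]
    have h16 : (N : ℝ) * 4 ≤ N * (Real.exp 1 * Real.exp 1) := mul_le_mul_of_nonneg_left h15 hNp.le
    linarith
  have h14 : Real.exp y * (2 * ((N : ℝ) + 1)) ≤ 2 * ((N : ℝ) + 1) * S := by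
    refine le_trans ?_ (h8.trans h7)
    rw [h10]
    exact mul_le_mul_of_nonneg_left h11 (Real.exp_pos y).le
  rw [mul_comm] at h14
  exact le_of_mul_le_mul_left h14 (by positivity)

end H61DH
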