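import Mathlib

/-!
Section 7 of /team-store/H98_DEPTH.md (helper61): the recursion of the iterated tribes at bias `1/2 ± γ`.
`ft b k p`: probability that a random set (each element with probability `p`) is light for the formula of depth `k + 1` with
parameter `b`; `et b k = ft b k (1/2)`, `an b k = ⌈b / et b k⌉`, `Bn b k` = number of variables.
-/

set_option autoImplicit false

namespace H61DH

/-- probability of light sets -/
noncomputable def ft (b : ℕ) : ℕ → ℝ → ℝ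
  | 0, p => (1 - p) ^ b
  | k + 1, p => (1 - ft b k (1 - p)) ^ ⌈(b : ℝ) / ft b k (1 / 2)⌉₊

/-- the value at `1/2` -/
noncomputable def et (b k : ℕ) : ℝ := ft b k (1 / 2)

/-- fan-in -/
noncomputable def an (b k : ℕ) : ℕ := ⌈(b : ℝ) / et b k⌉₊

/-- number of variables -/
noncomputable def Bn (b : ℕ) : ℕ → ℕ
  | 0 => b
  | k + 1 => an b k * Bn b k

theorem ft_zero (b : ℕ) (p : ℝ) : ft b 0 p = (1 - p) ^ b := rfl

theorem ft_succ (b k : ℕ) (p : ℝ) : ft b (k + 1) p = (1 - ft b k (1 - p)) ^ an b k := rfl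

theorem et_succ (b k : ℕ) : et b (k + 1) = (1 - et b k) ^ an b k := by
  show ft b (k + 1) (1 / 2) = _
  rw [ft_succ]
  have h : (1 : ℝ) - 1 / 2 = 1 / 2 := by norm_num
  rw [h]
  rfl

theorem ft_range (b k : ℕ) : ∀ p : ℝ, 0 ≤ p → p ≤ 1 → 0 ≤ ft b k p ∧ ft b k p ≤ 1 := by
  induction k with
  | zero =>
    intro p h0 h1
    rw [ft_zero]
    exact ⟨pow_nonneg (by linarith) _, pow_le_one₀ (by linarith) (by linarith)⟩
  | succ k ih =>
    intro p h0 h1
    obtain ⟨h2, h3⟩ := ih (1 - p) (by linarith) (by linarith)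
    rw [ft_succ]
    exact ⟨pow_nonneg (by linarith) _, pow_le_one₀ (by linarith) (by linarith)⟩

theorem exp_neg_one_le : Real.exp (-1) ≤ 1 / 2 := by
  have h1 : (2 : ℝ) ≤ Real.exp 1 := by
    have := Real.add_one_le_exp (1 : ℝ)
    linarith
  rw [Real.exp_neg]
  rw [one_div]
  exact inv_anti₀ (by norm_num) h1

theorem exp_neg_le_half_pow (b : ℕ) : Real.exp (-(b : ℝ)) ≤ (1 / 2 : ℝ) ^ b := by
  have h1 : Real.exp (-(b : ℝ)) = Real.exp (-1) ^ b := by
    rw [← Real.exp_nat_mul]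
    congr 1
    ring
  rw [h1]
  exact pow_le_pow_left₀ (Real.exp_pos _).le exp_neg_one_le b

theorem half_pow_mul_le (b : ℕ) (hb : 2 ≤ b) : (1 / 2 : ℝ) ^ b * b ≤ 1 / 2 := by
  induction b, hb using Nat.le_induction with
  | base => norm_num
  | succ b hb ih =>
    have hb' : (2 : ℝ) ≤ b := by exact_mod_cast hb
    have h0 : (0 : ℝ) < (1 / 2 : ℝ) ^ b := by positivity
    rw [pow_succ]
    push_cast
    nlinarith

theorem et_bd (b : ℕ) (hb : 2 ≤ b) (k : ℕ) :
    Real.exp (-(b : ℝ) - 2) ≤ et b k ∧ et b k ≤ (1 / 2 : ℝ) ^ b := by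
  have hb' : (2 : ℝ) ≤ b := by exact_mod_cast hb
  induction k with
  | zero =>
    have h1 : et b 0 = (1 / 2 : ℝ) ^ b := by
      show (1 - (1 / 2 : ℝ)) ^ b = _
      norm_num
    rw [h1]
    refine ⟨le_trans (Real.exp_le_exp.mpr (by linarith)) (exp_neg_le_half_pow b), le_rfl⟩
  | succ k ih =>
    obtain ⟨h1, h2⟩ := ih
    rw [et_succ]
    set x := et b k with hx
    have hx0 : 0 < x := lt_of_lt_of_le (Real.exp_pos _) h1
    have hx4 : x ≤ 1 / 4 := by
      refine h2.trans ?_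
      calc (1 / 2 : ℝ) ^ b ≤ (1 / 2 : ℝ) ^ 2 := pow_le_pow_of_le_one (by norm_num) (by norm_num) hb
        _ = 1 / 4 := by norm_num
    have hxb : x * b ≤ 1 / 2 := by
      refine le_trans (mul_le_mul_of_nonneg_right h2 (by positivity)) (half_pow_mul_le b hb)
    have ha1 : (b : ℝ) / x ≤ an b k := Nat.le_ceil _
    have ha2 : (an b k : ℝ) < b / x + 1 := Nat.ceil_lt_add_one (by positivity)
    have ha3 : (b : ℝ) ≤ an b k * x := by
      rwa [div_le_iff₀ hx0] at ha1
    have ha4 : (an b k : ℝ) * x ≤ b + x := by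
      have h5 := mul_le_mul_of_nonneg_right ha2.le hx0.le
      rw [add_mul, div_mul_cancel₀ _ hx0.ne', one_mul] at h5
      exact h5
    constructor
    · have h3 : Real.exp (-(x + 2 * x ^ 2)) ≤ 1 - x := by
        have h4 : -(x + 2 * x ^ 2) ≤ Real.log (1 - x) := by
          have h5 := Real.one_sub_inv_le_log_of_pos (show 0 < 1 - x by linarith)
          refine le_trans ?_ h5
          have h6 : (1 - x)⁻¹ ≤ 1 + x + 2 * x ^ 2 := by
            rw [inv_le_iff_one_le_mul₀ (by linarith)]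
            nlinarith [mul_nonneg hx0.le hx0.le, mul_nonneg (mul_nonneg hx0.le hx0.le) hx0.le]
          linarith
        calc Real.exp (-(x + 2 * x ^ 2)) ≤ Real.exp (Real.log (1 - x)) := Real.exp_le_exp.mpr h4
          _ = 1 - x := Real.exp_log (by linarith)
      calc Real.exp (-(b : ℝ) - 2) ≤ Real.exp (an b k * (-(x + 2 * x ^ 2))) := by
            refine Real.exp_le_exp.mpr ?_
            have h6 : (an b k : ℝ) * (x + 2 * x ^ 2) = (an b k * x) * (1 + 2 * x) := by ring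
            have h7 : (an b k * x) * (1 + 2 * x) ≤ (b + x) * (1 + 2 * x) :=
              mul_le_mul_of_nonneg_right ha4 (by linarith)
            nlinarith
        _ = Real.exp (-(x + 2 * x ^ 2)) ^ an b k := by rw [← Real.exp_nat_mul]
        _ ≤ (1 - x) ^ an b k := pow_le_pow_left₀ (Real.exp_pos _).le h3 _
    · calc (1 - x) ^ an b k ≤ Real.exp (-x) ^ an b k :=
            pow_le_pow_left₀ (by linarith) (Real.one_sub_le_exp_neg x) _
        _ = Real.exp (an b k * (-x)) := by rw [← Real.exp_nat_mul]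
        _ ≤ Real.exp (-(b : ℝ)) := Real.exp_le_exp.mpr (by linarith)
        _ ≤ (1 / 2 : ℝ) ^ b := exp_neg_le_half_pow b

theorem et_pos (b : ℕ) (hb : 2 ≤ b) (k : ℕ) : 0 < et b k :=
  lt_of_lt_of_le (Real.exp_pos _) (et_bd b hb k).1

theorem et_le_quarter (b : ℕ) (hb : 2 ≤ b) (k : ℕ) : et b k ≤ 1 / 4 := by
  refine (et_bd b hb k).2.trans ?_
  calc (1 / 2 : ℝ) ^ b ≤ (1 / 2 : ℝ) ^ 2 := pow_le_pow_of_le_one (by norm_num) (by norm_num) hb
    _ = 1 / 4 := by norm_num

theorem an_ge (b : ℕ) (hb : 2 ≤ b) (k : ℕ) : (b : ℝ) ≤ an b k * et b k := by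
  have h1 : (b : ℝ) / et b k ≤ an b k := Nat.le_ceil _
  rwa [div_le_iff₀ (et_pos b hb k)] at h1

theorem an_pos (b : ℕ) (hb : 2 ≤ b) (k : ℕ) : 0 < an b k := by
  rw [Nat.pos_iff_ne_zero]
  intro h
  have h1 := an_ge b hb k
  rw [h] at h1
  have hb' : (2 : ℝ) ≤ b := by exact_mod_cast hb
  push_cast at h1
  linarith

theorem an_le (b : ℕ) (hb : 2 ≤ b) (k : ℕ) : (an b k : ℝ) ≤ Real.exp (2 * b + 2) := by
  have hb' : (2 : ℝ) ≤ b := by exact_mod_cast hb
  have hx0 := et_pos b hb k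
  have h2 : (an b k : ℝ) < b / et b k + 1 := Nat.ceil_lt_add_one (by positivity)
  have h3 : (b : ℝ) / et b k ≤ Real.exp (2 * b + 1) := by
    rw [div_le_iff₀ hx0]
    have h4 : (b : ℝ) ≤ Real.exp (b - 1) := by
      have := Real.add_one_le_exp ((b : ℝ) - 1)
      linarith
    calc (b : ℝ) ≤ Real.exp (b - 1) := h4
      _ = Real.exp (2 * b + 1) * Real.exp (-(b : ℝ) - 2) := by
        rw [← Real.exp_add]
        congr 1
        ring
      _ ≤ Real.exp (2 * b + 1) * et b k :=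
        mul_le_mul_of_nonneg_left (et_bd b hb k).1 (Real.exp_pos _).le
  have h5 : Real.exp (2 * b + 2) = Real.exp (2 * b + 1) * Real.exp 1 := by
    rw [← Real.exp_add]
    congr 1
    ring
  have h6 : (2 : ℝ) ≤ Real.exp 1 := by
    have := Real.add_one_le_exp (1 : ℝ)
    linarith
  have h7 : (1 : ℝ) ≤ Real.exp (2 * b + 1) := Real.one_le_exp (by linarith)
  rw [h5]
  nlinarith

theorem Bn_le (b : ℕ) (hb : 2 ≤ b) (k : ℕ) : (Bn b k : ℝ) ≤ Real.exp ((k + 1) * (2 * b + 2)) := by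
  have hb' : (2 : ℝ) ≤ b := by exact_mod_cast hb
  induction k with
  | zero =>
    show (b : ℝ) ≤ _
    have := Real.add_one_le_exp (((0 : ℕ) + 1 : ℝ) * (2 * b + 2))
    push_cast at this ⊢
    linarith
  | succ k ih =>
    show ((an b k * Bn b k : ℕ) : ℝ) ≤ _
    push_cast
    calc (an b k : ℝ) * Bn b k ≤ Real.exp (2 * b + 2) * Real.exp ((k + 1) * (2 * b + 2)) :=
          mul_le_mul (an_le b hb k) ih (Nat.cast_nonneg _) (Real.exp_pos _).le
      _ = Real.exp ((k + 1 + 1) * (2 * b + 2)) := by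
        rw [← Real.exp_add]
        congr 1
        ring

theorem Bn_pos (b : ℕ) (hb : 2 ≤ b) (k : ℕ) : 0 < Bn b k := by
  induction k with
  | zero =>
    show 0 < b
    omega
  | succ k ih => exact Nat.mul_pos (an_pos b hb k) ih

theorem exp_neg_le_one_sub_half {y : ℝ} (h0 : 0 ≤ y) (h1 : y ≤ 1) : Real.exp (-y) ≤ 1 - y / 2 := by
  have h2 : 1 + y ≤ Real.exp y := by
    have := Real.add_one_le_exp y
    linarith
  rw [Real.exp_neg]
  calc (Real.exp y)⁻¹ ≤ (1 + y)⁻¹ := inv_anti₀ (by linarith) h2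
    _ ≤ 1 - y / 2 := by
      rw [inv_le_iff_one_le_mul₀ (by linarith)]
      nlinarith

/-- the deviation at level `k` -/
noncomputable def dd (b : ℕ) (γ : ℝ) (k : ℕ) : ℝ := γ * b * ((b : ℝ) / 2) ^ k

theorem dd_succ (b : ℕ) (γ : ℝ) (k : ℕ) : dd b γ (k + 1) = b * dd b γ k / 2 := by
  unfold dd
  rw [pow_succ]
  ring

theorem dd_nonneg (b : ℕ) (γ : ℝ) (hγ : 0 ≤ γ) (k : ℕ) : 0 ≤ dd b γ k := by
  unfold dd
  positivity

theorem gap_up (b : ℕ) (hb : 2 ≤ b) (k : ℕ) (γ : ℝ) (h : ft b k (1 / 2 + γ) ≤ et b k * (1 - dd b γ k))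
    (hγ : 0 ≤ γ) : et b (k + 1) * (1 + b * dd b γ k) ≤ ft b (k + 1) (1 / 2 - γ) := by
  have hd := dd_nonneg b γ hγ k
  set d := dd b γ k
  set x := et b k with hx
  have hx0 : 0 < x := et_pos b hb k
  have hx4 : x ≤ 1 / 4 := et_le_quarter b hb k
  have h1 : (1 : ℝ) - (1 / 2 - γ) = 1 / 2 + γ := by ring
  rw [ft_succ, h1, et_succ, ← hx]
  have h2 : (1 - x) * (1 + x * d) ≤ 1 - ft b k (1 / 2 + γ) := by
    nlinarith [mul_nonneg (mul_nonneg hx0.le hx0.le) hd]
  have h3 : 0 ≤ (1 - x) * (1 + x * d) := by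
    have := mul_nonneg hx0.le hd
    exact mul_nonneg (by linarith) (by linarith)
  calc (1 - x) ^ an b k * (1 + b * d) ≤ (1 - x) ^ an b k * (1 + x * d) ^ an b k := by
        refine mul_le_mul_of_nonneg_left ?_ (pow_nonneg (by linarith) _)
        have h4 := one_add_mul_le_pow (a := x * d) (by
          have := mul_nonneg hx0.le hd
          linarith) (an b k)
        refine le_trans ?_ h4
        have h5 := mul_le_mul_of_nonneg_right (an_ge b hb k) hd
        rw [← hx] at h5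
        linarith
    _ = ((1 - x) * (1 + x * d)) ^ an b k := (mul_pow _ _ _).symm
    _ ≤ (1 - ft b k (1 / 2 + γ)) ^ an b k := pow_le_pow_left₀ h3 h2 _

theorem gap_down (b : ℕ) (hb : 2 ≤ b) (k : ℕ) (γ : ℝ) (h : et b k * (1 + dd b γ k) ≤ ft b k (1 / 2 - γ))
    (hγ : 0 ≤ γ) (hγ1 : γ ≤ 1 / 2) (hbd : b * dd b γ k ≤ 1) :
    ft b (k + 1) (1 / 2 + γ) ≤ et b (k + 1) * (1 - dd b γ (k + 1)) := by
  have hd := dd_nonneg b γ hγ k
  rw [dd_succ]
  set d := dd b γ k
  set x := et b k with hx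
  have hb' : (2 : ℝ) ≤ b := by exact_mod_cast hb
  have hx0 : 0 < x := et_pos b hb k
  have hx4 : x ≤ 1 / 4 := et_le_quarter b hb k
  have hd1 : d ≤ 1 := by nlinarith
  have h1 : (1 : ℝ) - (1 / 2 + γ) = 1 / 2 - γ := by ring
  rw [ft_succ, h1, et_succ, ← hx]
  obtain ⟨h6, h7⟩ := ft_range b k (1 / 2 - γ) (by linarith) (by linarith)
  have hxd : x * d ≤ 1 := by nlinarith
  have h2 : 1 - ft b k (1 / 2 - γ) ≤ (1 - x) * (1 - x * d) := by
    nlinarith [mul_nonneg (mul_nonneg hx0.le hx0.le) hd]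
  calc (1 - ft b k (1 / 2 - γ)) ^ an b k ≤ ((1 - x) * (1 - x * d)) ^ an b k :=
        pow_le_pow_left₀ (by linarith) h2 _
    _ = (1 - x) ^ an b k * (1 - x * d) ^ an b k := mul_pow _ _ _
    _ ≤ (1 - x) ^ an b k * (1 - b * d / 2) := by
      refine mul_le_mul_of_nonneg_left ?_ (pow_nonneg (by linarith) _)
      calc (1 - x * d) ^ an b k ≤ Real.exp (-(x * d)) ^ an b k :=
            pow_le_pow_left₀ (by linarith) (Real.one_sub_le_exp_neg _) _
        _ = Real.exp (an b k * (-(x * d))) := by rw [← Real.exp_nat_mul]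
        _ ≤ Real.exp (-(b * d)) := by
          refine Real.exp_le_exp.mpr ?_
          have h5 := mul_le_mul_of_nonneg_right (an_ge b hb k) hd
          rw [← hx] at h5
          linarith
        _ ≤ 1 - b * d / 2 := exp_neg_le_one_sub_half (by positivity) hbd

theorem gap (b : ℕ) (hb : 2 ≤ b) (γ : ℝ) (hγ : 0 ≤ γ) (hγb : 2 * γ * b ≤ 1) (k : ℕ)
    (hk : ∀ j < k, b * dd b γ j ≤ 1) :
    et b k * (1 + dd b γ k) ≤ ft b k (1 / 2 - γ) ∧ ft b k (1 / 2 + γ) ≤ et b k * (1 - dd b γ k) := by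
  have hb' : (2 : ℝ) ≤ b := by exact_mod_cast hb
  have hγ1 : γ ≤ 1 / 2 := by nlinarith
  induction k with
  | zero =>
    have h0 : et b 0 = (1 / 2 : ℝ) ^ b := by
      show (1 - (1 / 2 : ℝ)) ^ b = _
      norm_num
    have hd : dd b γ 0 = γ * b := by
      unfold dd
      ring
    rw [h0, hd, ft_zero, ft_zero]
    constructor
    · have h1 : (1 : ℝ) - (1 / 2 - γ) = 1 / 2 * (1 + 2 * γ) := by ring
      rw [h1, mul_pow]
      refine mul_le_mul_of_nonneg_left ?_ (by positivity)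
      have h2 := one_add_mul_le_pow (a := 2 * γ) (by linarith) b
      nlinarith
    · have h1 : (1 : ℝ) - (1 / 2 + γ) = 1 / 2 * (1 - 2 * γ) := by ring
      rw [h1, mul_pow]
      refine mul_le_mul_of_nonneg_left ?_ (by positivity)
      calc (1 - 2 * γ) ^ b ≤ Real.exp (-(2 * γ)) ^ b :=
            pow_le_pow_left₀ (by linarith) (Real.one_sub_le_exp_neg _) _
        _ = Real.exp (-(2 * γ * b)) := by
          rw [← Real.exp_nat_mul]
          congr 1
          ring
        _ ≤ 1 - 2 * γ * b / 2 := exp_neg_le_one_sub_half (by positivity) hγb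
        _ = 1 - γ * b := by ring
  | succ k ih =>
    obtain ⟨h1, h2⟩ := ih fun j hj => hk j (by omega)
    have hbk := hk k (by omega)
    refine ⟨?_, gap_down b hb k γ h1 hγ hγ1 hbk⟩
    refine le_trans ?_ (gap_up b hb k γ h2 hγ)
    refine mul_le_mul_of_nonneg_left ?_ (et_pos b hb (k + 1)).le
    rw [dd_succ]
    have := dd_nonneg b γ hγ k
    nlinarith

/-- the bias -/
noncomputable def gm (b k : ℕ) : ℝ := 2 ^ k / (2 * (b : ℝ) ^ (k + 1))

theorem gm_pos (b : ℕ) (hb : 2 ≤ b) (k : ℕ) : 0 < gm b k := by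
  have : (0 : ℝ) < b := by
    have : 0 < b := by omega
    exact_mod_cast this
  unfold gm
  positivity

theorem gm_le (b : ℕ) (hb : 2 ≤ b) (k : ℕ) : 2 * gm b k * b ≤ 1 := by
  have hb' : (2 : ℝ) ≤ b := by exact_mod_cast hb
  have hb0 : (0 : ℝ) < b := by linarith
  have h1 : 2 * gm b k * b = (2 / (b : ℝ)) ^ k := by
    unfold gm
    rw [div_pow, pow_succ]
    field_simp
  rw [h1]
  exact pow_le_one₀ (by positivity) ((div_le_one hb0).mpr hb')

/-- Section 7, final estimate. -/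
theorem trb_gap (b : ℕ) (hb : 2 ≤ b) (k : ℕ) : 2 * et b k ≤ ft b k (1 / 2 - gm b k) := by
  have hb' : (2 : ℝ) ≤ b := by exact_mod_cast hb
  have hb0 : (0 : ℝ) < b := by linarith
  have hg := gm_pos b hb k
  have hgb := gm_le b hb k
  cases k with
  | zero =>
    have h0 : et b 0 = (1 / 2 : ℝ) ^ b := by
      show (1 - (1 / 2 : ℝ)) ^ b = _
      norm_num
    have h1 : (1 : ℝ) - (1 / 2 - gm b 0) = 1 / 2 * (1 + 1 / b) := by
      unfold gm
      field_simp
      ring
    rw [h0, ft_zero, h1, mul_pow]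
    have h2 := one_add_mul_le_pow (a := 1 / (b : ℝ)) (by
      have : (0 : ℝ) ≤ 1 / b := by positivity
      linarith) b
    have h3 : (b : ℝ) * (1 / b) = 1 := by field_simp
    rw [h3] at h2
    have h4 : (0 : ℝ) < (1 / 2 : ℝ) ^ b := by positivity
    nlinarith
  | succ k =>
    have hdd : ∀ j, b * dd b (gm b (k + 1)) j = ((b : ℝ) / 2) ^ j / ((b : ℝ) / 2) ^ k := by
      intro j
      unfold dd gm
      rw [div_pow _ _ k, pow_succ (b : ℝ) (k + 1), pow_succ (b : ℝ) k, pow_succ (2 : ℝ) k]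
      field_simp
    have h1 : (1 : ℝ) ≤ (b : ℝ) / 2 := by linarith
    obtain ⟨-, h3⟩ := gap b hb (gm b (k + 1)) hg.le hgb k fun j hj => by
      rw [hdd]
      rw [div_le_one (by positivity)]
      exact pow_le_pow_right₀ h1 hj.le
    have h4 := gap_up b hb k _ h3 hg.le
    rw [hdd, div_self (by positivity)] at h4
    linarith

end H61DH
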