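import Pool.Agent.H98.DH.GC
import Pool.Agent.H98.DH.GW
import Pool.Agent.H61.DH.Trb

/-!
Block TR (helper61): the iterated tribes, existence of the good pair with all the numbers.
-/

set_option autoImplicit false
open scoped Classical

namespace H61DH

open H98DH

theorem an_le' (b : ℕ) (hb : 20 ≤ b) (k : ℕ) : (an b k : ℝ) ≤ Real.exp (2 * b) := by
  have hb' : (20 : ℝ) ≤ b := by exact_mod_cast hb
  have hx0 := et_pos b (by omega) k
  have h2 : (an b k : ℝ) < b / et b k + 1 := Nat.ceil_lt_add_one (by positivity)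
  have h3 : (b : ℝ) / et b k ≤ b * Real.exp (b + 2) := by
    rw [div_le_iff₀ hx0, mul_assoc]
    have h4 : (1 : ℝ) ≤ Real.exp (b + 2) * et b k := by
      calc (1 : ℝ) = Real.exp (b + 2) * Real.exp (-(b : ℝ) - 2) := by
            rw [← Real.exp_add]
            rw [show (b : ℝ) + 2 + (-(b : ℝ) - 2) = 0 by ring, Real.exp_zero]
        _ ≤ Real.exp (b + 2) * et b k :=
            mul_le_mul_of_nonneg_left (et_bd b (by omega) k).1 (Real.exp_pos _).le
    calc (b : ℝ) = b * 1 := (mul_one _).symm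
      _ ≤ b * (Real.exp (b + 2) * et b k) := mul_le_mul_of_nonneg_left h4 (by positivity)
  have h5 : Real.exp 2 ≤ 7.4 := by
    have h6 := Real.exp_one_lt_d9
    have h7 : Real.exp 2 = Real.exp 1 * Real.exp 1 := by
      rw [← Real.exp_add]
      norm_num
    rw [h7]
    have h8 := Real.exp_pos 1
    nlinarith
  have h6 : (b : ℝ) * Real.exp 2 + 1 ≤ Real.exp b := by
    have h7 := Real.quadratic_le_exp_of_nonneg (show (0 : ℝ) ≤ b by linarith)
    nlinarith
  have h7 : (1 : ℝ) ≤ Real.exp b := Real.one_le_exp (by linarith)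
  have h8 : Real.exp (2 * b) = Real.exp b * Real.exp b := by
    rw [← Real.exp_add]
    congr 1
    ring
  have h9 : Real.exp ((b : ℝ) + 2) = Real.exp b * Real.exp 2 := Real.exp_add _ _
  rw [h8]
  rw [h9] at h3
  nlinarith

theorem Bn_le' (b : ℕ) (hb : 20 ≤ b) (k : ℕ) : (Bn b k : ℝ) ≤ Real.exp (2 * b * (k + 1)) := by
  have hb' : (20 : ℝ) ≤ b := by exact_mod_cast hb
  induction k with
  | zero =>
    show (b : ℝ) ≤ _
    have := Real.add_one_le_exp (2 * (b : ℝ) * ((0 : ℕ) + 1))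
    push_cast at this ⊢
    linarith
  | succ k ih =>
    show ((an b k * Bn b k : ℕ) : ℝ) ≤ _
    push_cast
    calc (an b k : ℝ) * Bn b k ≤ Real.exp (2 * b) * Real.exp (2 * b * (k + 1)) :=
          mul_le_mul (an_le' b hb k) ih (Nat.cast_nonneg _) (Real.exp_pos _).le
      _ = Real.exp (2 * b * (k + 1 + 1)) := by
        rw [← Real.exp_add]
        congr 1
        ring

private theorem tr_base (b : ℕ) (hb : 2 ≤ b) :
    ∃ (A : Set (Fin b → ZMod 2)) (L : Set (Finset (Fin b))), Good A L ∧ A ≠ Set.univ ∧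
      (∀ p : ℝ, wt p L = (1 - p) ^ b) ∧
      ∀ (n : ℕ) (ρ : Fin b → Fin n) (σ : Fin b → ZMod 2), ∃ φ : Fm n 1,
        (∀ x, Holds 1 φ x ↔ ¬ ((fun l => x (ρ l)) + σ ∈ A)) ∧ leaves 1 φ = b := by
  refine ⟨({0} : Set (Fin b → ZMod 2)), ({∅} : Set (Finset (Fin b))), good_point b, ?_, ?_, ?_⟩
  · intro h
    have h1 : (fun _ : Fin b => (1 : ZMod 2)) ∈ ({0} : Set (Fin b → ZMod 2)) := by
      rw [h]
      trivial
    have h2 := congrFun (Set.mem_singleton_iff.mp h1) ⟨0, by omega⟩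
    exact one_ne_zero h2
  · intro p
    exact wt_point b p
  · intro n ρ σ
    have hl : ∀ F : Fin b → Fm n 0, ((List.ofFn F).map (leaves 0)).sum = b := by
      intro F
      rw [List.map_ofFn, List.sum_ofFn]
      show ∑ _l : Fin b, 1 = b
      simp
    let F : Fin b → Fm n 0 := fun l => ((ρ l, σ l) : Fin n × ZMod 2)
    refine ⟨(List.ofFn F : List (Fm n 0)), ?_, hl F⟩
    intro x
    show (¬ ∀ φ ∈ (List.ofFn F : List (Fm n 0)), Holds 0 φ x) ↔ _
    refine not_congr ?_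
    have h1 : (∀ φ ∈ (List.ofFn F : List (Fm n 0)), Holds 0 φ x) ↔ ∀ l : Fin b, x (ρ l) = σ l := by
      constructor
      · intro h l
        exact h (F l) (List.mem_ofFn.mpr ⟨l, rfl⟩)
      · intro h φ hφ
        obtain ⟨l, rfl⟩ := List.mem_ofFn.mp hφ
        exact h l
    rw [h1]
    have h2 : ∀ a c : ZMod 2, a = c ↔ a + c = 0 := by decide
    constructor
    · intro h
      refine Set.mem_singleton_iff.mpr (funext fun l => ?_)
      exact (h2 _ _).mp (h l)
    · intro h l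
      exact (h2 _ _).mpr (congrFun (Set.mem_singleton_iff.mp h) l)

theorem tr_exists (b : ℕ) (hb : 2 ≤ b) (k : ℕ) :
    ∃ (A : Set (Fin (Bn b k) → ZMod 2)) (L : Set (Finset (Fin (Bn b k)))), Good A L ∧ A ≠ Set.univ ∧
      (∀ p : ℝ, wt p L = ft b k p) ∧
      ∀ (n : ℕ) (ρ : Fin (Bn b k) → Fin n) (σ : Fin (Bn b k) → ZMod 2), ∃ φ : Fm n (k + 1),
        (∀ x, Holds (k + 1) φ x ↔ ¬ ((fun l => x (ρ l)) + σ ∈ A)) ∧ leaves (k + 1) φ = Bn b k := by
  induction k with
  | zero => exact tr_base b hb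
  | succ k ih =>
    obtain ⟨A, L, hG, hA, hw, hF⟩ := ih
    have hane : ∃ z, z ∈ A := by
      by_contra hcon
      push Not at hcon
      have h1 : A = ∅ := Set.eq_empty_iff_forall_notMem.mpr hcon
      have h2 := hG.card
      rw [h1] at h2
      have h3 : Nat.card (∅ : Set (Fin (Bn b k) → ZMod 2)) = 0 := by simp
      rw [h3] at h2
      have h4 : 0 < Nat.card L := Nat.card_pos_iff.mpr ⟨⟨⟨∅, hG.empty⟩⟩, inferInstance⟩
      omega
    refine ⟨stepA (an b k) A, stepL (an b k) L, good_step hG hA, ?_, ?_, ?_⟩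
    · intro h
      obtain ⟨z, hz⟩ := hane
      have h1 : (fun j : Fin (an b k * Bn b k) => z (finProdFinEquiv.symm j).2) ∈
          stepA (an b k) A := by
        rw [h]
        trivial
      have h2 := h1 ⟨0, an_pos b hb k⟩
      apply h2
      have h3 : sub (fun j : Fin (an b k * Bn b k) => z (finProdFinEquiv.symm j).2)
          ⟨0, an_pos b hb k⟩ = z := by
        funext l
        show z (finProdFinEquiv.symm (finProdFinEquiv (⟨0, an_pos b hb k⟩, l))).2 = z l
        rw [Equiv.symm_apply_apply]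
      rw [h3]
      exact hz
    · intro p
      have h1 := wt_step (an b k) p L
      rw [hw] at h1
      exact h1
    · intro n ρ σ
      choose Φ hΦ1 hΦ2 using fun i : Fin (an b k) =>
        hF n (fun l => ρ (finProdFinEquiv (i, l))) (fun l => σ (finProdFinEquiv (i, l)))
      refine ⟨(List.ofFn Φ : List (Fm n (k + 1))), ?_, ?_⟩
      · intro x
        show (¬ ∀ φ ∈ (List.ofFn Φ : List (Fm n (k + 1))), Holds (k + 1) φ x) ↔ _
        refine not_congr ?_
        constructor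
        · intro h i
          exact (hΦ1 i x).mp (h (Φ i) (List.mem_ofFn.mpr ⟨i, rfl⟩))
        · intro h φ hφ
          obtain ⟨i, rfl⟩ := List.mem_ofFn.mp hφ
          exact (hΦ1 i x).mpr (h i)
      · show ((List.ofFn Φ : List (Fm n (k + 1))).map (leaves (k + 1))).sum = an b k * Bn b k
        rw [List.map_ofFn, List.sum_ofFn]
        show ∑ i : Fin (an b k), leaves (k + 1) (Φ i) = an b k * Bn b k
        rw [Finset.sum_congr rfl fun i _ => hΦ2 i, Finset.sum_const, Finset.card_univ, Fintype.card_fin,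
          smul_eq_mul]

theorem tribes (K b : ℕ) (hK : 1 ≤ K) (hb : 20 ≤ b) :
    ∃ (B : ℕ) (A : Set (Fin B → ZMod 2)) (L : Set (Finset (Fin B))), 1 ≤ B ∧
      (B : ℝ) ≤ Real.exp (2 * b * K) ∧ Good A L ∧ A ≠ Set.univ ∧
      Real.exp (-((b : ℝ) + 2)) ≤ wt (1 / 2) L ∧ wt (1 / 2) L ≤ (1 / 2 : ℝ) ^ b ∧
      2 * wt (1 / 2) L ≤ wt (1 / 2 - 2 ^ K / (4 * (b : ℝ) ^ K)) L ∧
      ∀ (n : ℕ) (ρ : Fin B → Fin n) (σ : Fin B → ZMod 2), ∃ φ : Fm n K,
        (∀ x, Holds K φ x ↔ ¬ ((fun l => x (ρ l)) + σ ∈ A)) ∧ leaves K φ = B := by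
  obtain ⟨k, rfl⟩ : ∃ k, K = k + 1 := ⟨K - 1, by omega⟩
  have hb2 : 2 ≤ b := by omega
  obtain ⟨A, L, hG, hA, hw, hF⟩ := tr_exists b hb2 k
  have hb0 : (0 : ℝ) < b := by
    have : 0 < b := by omega
    exact_mod_cast this
  refine ⟨Bn b k, A, L, Bn_pos b hb2 k, ?_, hG, hA, ?_, ?_, ?_, hF⟩
  · push_cast
    exact Bn_le' b hb k
  · rw [hw]
    have h1 := (et_bd b hb2 k).1
    rw [show -((b : ℝ) + 2) = -(b : ℝ) - 2 by ring]
    exact h1
  · rw [hw]
    exact (et_bd b hb2 k).2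
  · rw [hw, hw]
    have h1 := trb_gap b hb2 k
    have h2 : (2 : ℝ) ^ (k + 1) / (4 * (b : ℝ) ^ (k + 1)) = gm b k := by
      unfold gm
      rw [pow_succ (2 : ℝ) k]
      field_simp
      ring
    rw [h2]
    exact h1

end H61DH
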