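import Pool.Agent.H98.DH.Defs
import Pool.Agent.H61.DH.Trb

/-!
Weights of the light sets (helper61): `wt_point`, `wt_compl`, `wt_pow`, `wt_stepL`.
-/

set_option autoImplicit false
open scoped Classical

namespace H61DH

open H98DH

/-- the weight of a set -/
noncomputable def W {B : ℕ} (p : ℝ) (T : Finset (Fin B)) : ℝ := ∏ l : Fin B, if l ∈ T then p else 1 - p

theorem W_eq {B : ℕ} (p : ℝ) (T : Finset (Fin B)) : W p T = p ^ T.card * (1 - p) ^ (B - T.card) := by
  unfold W
  rw [Finset.prod_ite, Finset.prod_const, Finset.prod_const]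
  have h1 : Finset.univ.filter (fun l : Fin B => l ∈ T) = T := by
    ext l
    simp
  have h2 : Finset.univ.filter (fun l : Fin B => l ∉ T) = Tᶜ := by
    ext l
    simp
  rw [h1, h2, Finset.card_compl, Fintype.card_fin]

theorem wt_eq {B : ℕ} (p : ℝ) (L : Set (Finset (Fin B))) :
    wt p L = ∑ T : Finset (Fin B), if T ∈ L then W p T else 0 := by
  unfold wt
  rw [Finset.sum_filter]
  refine Finset.sum_congr rfl fun T _ => ?_
  rw [W_eq]

theorem W_sum {B : ℕ} (p : ℝ) : ∑ T : Finset (Fin B), W p T = 1 := by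
  have h := Finset.prod_add (fun _ : Fin B => p) (fun _ => 1 - p) Finset.univ
  have h1 : ∀ T ∈ (Finset.univ : Finset (Fin B)).powerset,
      (∏ _i ∈ T, p) * ∏ _i ∈ Finset.univ \ T, (1 - p) = W p T := by
    intro T _
    rw [W_eq, Finset.prod_const, Finset.prod_const, ← Finset.compl_eq_univ_sdiff, Finset.card_compl,
      Fintype.card_fin]
  rw [Finset.sum_congr rfl h1, Finset.powerset_univ] at h
  rw [← h]
  simp

theorem wt_point {b : ℕ} (p : ℝ) : wt p ({∅} : Set (Finset (Fin b))) = (1 - p) ^ b := by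
  rw [wt_eq, Finset.sum_eq_single ∅]
  · rw [if_pos (Set.mem_singleton _), W_eq]
    simp
  · intro T _ hT
    exact if_neg hT
  · intro h
    exact absurd (Finset.mem_univ _) h

theorem W_compl {B : ℕ} (p : ℝ) (T : Finset (Fin B)) : W p Tᶜ = W (1 - p) T := by
  unfold W
  refine Finset.prod_congr rfl fun l _ => ?_
  by_cases h : l ∈ T
  · rw [if_neg (by simpa using h), if_pos h]
  · rw [if_pos (by simpa using h), if_neg h]
    ring

theorem wt_compl {B : ℕ} (p : ℝ) (L : Set (Finset (Fin B))) :
    wt p {R : Finset (Fin B) | Rᶜ ∉ L} = 1 - wt (1 - p) L := by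
  have h1 : wt (1 - p) L = ∑ T : Finset (Fin B), if Tᶜ ∈ L then W p T else 0 := by
    rw [wt_eq]
    refine Fintype.sum_equiv (Function.Involutive.toPerm (fun T : Finset (Fin B) => Tᶜ)
      compl_involutive) _ _ fun T => ?_
    show _ = if (Tᶜ)ᶜ ∈ L then W p Tᶜ else 0
    rw [compl_compl, W_compl]
  rw [h1, wt_eq, ← W_sum (B := B) p, ← Finset.sum_sub_distrib]
  refine Finset.sum_congr rfl fun T _ => ?_
  by_cases h : Tᶜ ∈ L
  · rw [if_pos h, sub_self]
    exact if_neg fun h' => h' h
  · rw [if_neg h, sub_zero]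
    exact if_pos h

/-- sets in a product of blocks -/
noncomputable def splitE (a B : ℕ) : Finset (Fin (a * B)) ≃ (Fin a → Finset (Fin B)) where
  toFun T := fun i => subT T i
  invFun f := Finset.univ.filter (fun j => (finProdFinEquiv.symm j).2 ∈ f (finProdFinEquiv.symm j).1)
  left_inv := by
    intro T
    ext j
    rw [Finset.mem_filter]
    unfold subT
    rw [Finset.mem_filter]
    constructor
    · rintro ⟨-, -, h⟩
      have : finProdFinEquiv ((finProdFinEquiv.symm j).1, (finProdFinEquiv.symm j).2) = j := by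
        rw [Prod.mk.eta]
        exact finProdFinEquiv.apply_symm_apply j
      rwa [this] at h
    · intro h
      refine ⟨Finset.mem_univ _, Finset.mem_univ _, ?_⟩
      have : finProdFinEquiv ((finProdFinEquiv.symm j).1, (finProdFinEquiv.symm j).2) = j := by
        rw [Prod.mk.eta]
        exact finProdFinEquiv.apply_symm_apply j
      rwa [this]
  right_inv := by
    intro f
    funext i
    ext l
    unfold subT
    rw [Finset.mem_filter, Finset.mem_filter, Equiv.symm_apply_apply]
    simp

theorem W_split {a B : ℕ} (p : ℝ) (T : Finset (Fin (a * B))) :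
    W p T = ∏ i : Fin a, W p (subT T i) := by
  unfold W
  rw [← Fintype.prod_prod_type']
  refine (Fintype.prod_equiv finProdFinEquiv _ _ fun il => ?_).symm
  by_cases h : finProdFinEquiv il ∈ T
  · have h' : il.2 ∈ subT T il.1 := Finset.mem_filter.mpr ⟨Finset.mem_univ _, h⟩
    rw [if_pos h, if_pos h']
  · have h' : il.2 ∉ subT T il.1 := fun h' => h (Finset.mem_filter.mp h').2
    rw [if_neg h, if_neg h']

theorem wt_pow {a B : ℕ} (p : ℝ) (M : Set (Finset (Fin B))) :
    wt p {T : Finset (Fin (a * B)) | ∀ i : Fin a, subT T i ∈ M} = wt p M ^ a := by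
  rw [wt_eq p M, Fintype.sum_pow, wt_eq]
  refine Fintype.sum_equiv (splitE a B) _ _ fun T => ?_
  show _ = ∏ i : Fin a, if subT T i ∈ M then W p (subT T i) else 0
  by_cases h : ∀ i : Fin a, subT T i ∈ M
  · have h1 : T ∈ {T : Finset (Fin (a * B)) | ∀ i : Fin a, subT T i ∈ M} := h
    rw [if_pos h1, W_split]
    exact Finset.prod_congr rfl fun i _ => (if_pos (h i)).symm
  · have h1 : T ∉ {T : Finset (Fin (a * B)) | ∀ i : Fin a, subT T i ∈ M} := h
    rw [if_neg h1]
    push Not at h
    obtain ⟨i, hi⟩ := h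
    exact (Finset.prod_eq_zero (Finset.mem_univ i) (if_neg hi)).symm

theorem wt_stepL {a B : ℕ} (p : ℝ) (L : Set (Finset (Fin B))) :
    wt p (stepL a L) = (1 - wt (1 - p) L) ^ a := by
  rw [← wt_compl]
  exact wt_pow p {R : Finset (Fin B) | Rᶜ ∉ L}

end H61DH
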